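import Pool.Agent.Lib.MP_3b3418_ag.PW.AllU

/-!
# `SL_m` acts trivially on `H^i (Ñ, ⋀^j T Ñ)^(-i-j)` near the boundary of the triangle, for all `m`

`Ñ = SL_m ×_B 𝔫` is the Springer resolution of type `A_(m-1)`. The definitions are in
`Pool/Agent/Lib/MP_3b3418_ag/Stm.lean` (tangent spaces of `Ñ`, action of `B`, dilations),
`PV/Reg.lean` (regular maps), `PV/Defs.lean` (`B`) and `PV/Coh.lean` (cochains). The definition of
the cohomology: `SL_m × 𝔫 → Ñ` is a principal bundle with group `B` and affine total space, so the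
cohomology of a quasi-coherent sheaf on `Ñ` is the cohomology of the complex of its sections over the
fibre powers.
-/

set_option autoImplicit false

namespace Pool.Agent.Results.MP_3b3418_ag.CohomologyBand

open MP3s PV

/-- Let `m ≥ 2` and let `i, j` be natural numbers with `j ≤ i + 4`, or `i + j ≥ m(m-1) - 4`, or
`i ≥ m(m-1)/2 - m + 1`, or `i ≤ 5`, or `m ≤ 5`. Let `s` be a cocycle of degree `i` and of
weight `-(i+j)` with values in `⋀^j T Ñ` and let `x ∈ SL_m`. Then `x s` and `s` have the same class in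
`H^i (Ñ, ⋀^j T Ñ)^(-i-j)`. -/
theorem result (m i j : ℕ) (_hm : 2 ≤ m)
    (hij : j ≤ i + 4 ∨ m * (m - 1) ≤ i + j + 4 ∨ m * (m - 1) / 2 + 1 ≤ i + m ∨
      i ≤ 5 ∨ m ≤ 5)
    (s : Chain m j i) (hs : s.HasWeight (-((i : ℤ) + j))) (hc : s.Closed) (x : SLm m) :
    SameClass (-((i : ℤ) + j)) (s.translate x) s :=
  PW.zFV m i j hij s hs hc x

end Pool.Agent.Results.MP_3b3418_ag.CohomologyBand
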